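import Mathlib
import Pool.Agent.Block637.Core

/-!
# Blocking words for potentially partially positive words

For every `r ≥ 2`, every reduced word of the free group `F_r` containing all reduced words of
length two as subwords is 3P-blocking, and such words exist.
-/

set_option autoImplicit false

namespace Pool.Agent.Results.MP_1d2ce7_al.Blocking

/-- The word `w` is partially positive: some generator `a` occurs in the reduced word `w`, and
`a⁻¹` does not occur in it. -/
def PartiallyPositive {r : ℕ} (w : FreeGroup (Fin r)) : Prop :=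
  ∃ a : Fin r, (a, true) ∈ w.toWord ∧ (a, false) ∉ w.toWord

/-- The word `w` is 3P (potentially partially positive): it is the image of a partially positive
word under an automorphism. -/
def ThreeP {r : ℕ} (w : FreeGroup (Fin r)) : Prop :=
  ∃ (φ : FreeGroup (Fin r) ≃* FreeGroup (Fin r)) (v : FreeGroup (Fin r)),
    PartiallyPositive v ∧ w = φ v

/-- The reduced word of `w` is cyclically reduced: its first letter is not the inverse of its last
letter. -/
def CyclicallyReduced {r : ℕ} (w : FreeGroup (Fin r)) : Prop :=
  ∀ x ∈ w.toWord.head?, ∀ y ∈ w.toWord.getLast?, x ≠ (y.1, !y.2)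

/-- The reduced word `u` is 3P-blocking: it is not a subword of any cyclically reduced 3P word. -/
def IsBlocking {r : ℕ} (u : List (Fin r × Bool)) : Prop :=
  FreeGroup.IsReduced u ∧
    ∀ w : FreeGroup (Fin r), ThreeP w → CyclicallyReduced w → ¬ (u <:+: w.toWord)

lemma cyc {r : ℕ} {w : FreeGroup (Fin r)} (h : CyclicallyReduced w) :
    FreeGroup.IsCyclicallyReduced w.toWord := by
  refine ⟨FreeGroup.isReduced_toWord, fun a ha b hb => ?_⟩
  exact (Block637.red_iff a b).mpr (h b hb a ha)

theorem blocking_of {r : ℕ} (u : List (Fin r × Bool)) (hu : FreeGroup.IsReduced u)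
    (hall : ∀ x y : Fin r × Bool, FreeGroup.IsReduced [x, y] → [x, y] <:+: u) : IsBlocking u := by
  refine ⟨hu, ?_⟩
  rintro w ⟨φ, v, ⟨a, -, ha⟩, rfl⟩ hw hinf
  obtain ⟨h, P, Q, -, ⟨p, hp⟩, ⟨q, hq⟩, hPQ, -, hturn⟩ :=
    Block637.exists_turns φ.symm (a, true)
  refine hturn (φ v) (cyc hw) ?_ p hp q hq ?_
  · rw [MulEquiv.symm_apply_apply]
    exact ha
  · refine List.IsInfix.trans (hall _ _ (Block637.isReduced_pair ?_)) hinf
    rw [Block637.bar_bar]
    rintro rfl
    exact hPQ _ hp hq

lemma ne_of_card {r : ℕ} (hr : 2 ≤ r) (S : Finset (Fin r × Bool)) (hS : S.card ≤ 3) :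
    ∃ c, c ∉ S := by
  by_contra h
  push Not at h
  have h1 : (Finset.univ : Finset (Fin r × Bool)) ⊆ S := fun c _ => h c
  have h2 := Finset.card_le_card h1
  rw [Finset.card_univ, Fintype.card_prod, Fintype.card_fin, Fintype.card_bool] at h2
  omega

lemma exists_of_list {r : ℕ} (hr : 2 ≤ r) (l : List ((Fin r × Bool) × (Fin r × Bool))) :
    ∃ u : List (Fin r × Bool), FreeGroup.IsReduced u ∧
      ∀ x ∈ l, FreeGroup.IsReduced [x.1, x.2] → [x.1, x.2] <:+: u := by
  induction l with
  | nil => exact ⟨[], FreeGroup.IsReduced.nil, by simp⟩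
  | cons t l ih =>
    obtain ⟨u, hu, hl⟩ := ih
    by_cases ht : FreeGroup.IsReduced [t.1, t.2]
    · obtain ⟨c, hc⟩ := ne_of_card hr ({Block637.bar t.2} ∪
        (u.head?.map Block637.bar).toFinset) (by
        refine (Finset.card_union_le _ _).trans ?_
        rw [Finset.card_singleton]
        have : (u.head?.map Block637.bar).toFinset.card ≤ 1 := by
          cases u.head?.map Block637.bar <;> simp
        omega)
      have hc1 : c ≠ Block637.bar t.2 := fun h => hc (Finset.mem_union_left _ (by simp [h]))
      have hc2 : ∀ z ∈ u.head?, z ≠ Block637.bar c := by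
        intro z hz hzc
        apply hc
        apply Finset.mem_union_right
        rw [Option.mem_toFinset, Option.mem_map]
        exact ⟨z, hz, by rw [hzc, Block637.bar_bar]⟩
      refine ⟨([t.1] ++ [t.2]) ++ [c] ++ u, ?_, ?_⟩
      · apply Block637.overlap_one
        · exact Block637.overlap_one (L₁ := [t.1]) (L₃ := [c]) ht (Block637.isReduced_pair hc1)
        · cases hcase : u with
          | nil => exact FreeGroup.IsReduced.singleton
          | cons z u' =>
            rw [hcase] at hu
            have : [c] ++ [z] ++ u' = [c] ++ z :: u' := by simp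
            rw [← this]
            exact Block637.overlap_one (Block637.isReduced_pair (hc2 z (by simp [hcase]))) hu
      · intro x hx hxr
        rcases List.mem_cons.mp hx with rfl | hx
        · exact ⟨[], [c] ++ u, by simp⟩
        · exact List.IsInfix.trans (hl x hx hxr) ⟨([t.1] ++ [t.2]) ++ [c], [], by simp⟩
    · refine ⟨u, hu, fun x hx hxr => ?_⟩
      rcases List.mem_cons.mp hx with rfl | hx
      · exact absurd hxr ht
      · exact hl x hx hxr

/-- Every reduced word containing all reduced two-letter words is 3P-blocking, in every rank; and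
in every rank `r ≥ 2` (hence in every rank `r ≥ 3`) there is such a word, so that there is a
3P-blocking word in `F_r`. -/
theorem result :
    (∀ (r : ℕ) (u : List (Fin r × Bool)), FreeGroup.IsReduced u →
      (∀ x y : Fin r × Bool, FreeGroup.IsReduced [x, y] → [x, y] <:+: u) → IsBlocking u) ∧
    (∀ r : ℕ, 2 ≤ r → ∃ u : List (Fin r × Bool), FreeGroup.IsReduced u ∧
      (∀ x y : Fin r × Bool, FreeGroup.IsReduced [x, y] → [x, y] <:+: u) ∧ IsBlocking u) := by
  refine ⟨fun r u hu h => blocking_of u hu h, fun r hr => ?_⟩
  obtain ⟨u, hu, hl⟩ := exists_of_list hr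
    (Finset.univ : Finset ((Fin r × Bool) × (Fin r × Bool))).toList
  have hall : ∀ x y : Fin r × Bool, FreeGroup.IsReduced [x, y] → [x, y] <:+: u :=
    fun x y hxy => hl (x, y) (by simp) hxy
  exact ⟨u, hu, hall, blocking_of u hu hall⟩

end Pool.Agent.Results.MP_1d2ce7_al.Blocking
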